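import Pool.Agent.Helper36_X1.Stmts2
import Pool.Agent.Helper18_X1.Upg
import Pool.Agent.Helper32_X1.Clo
import Pool.Agent.Helper65_D1.Ird

/-!
# Squad X1, module SUB: an irreducible quotient with a given label
-/

open scoped BigOperators

noncomputable section

namespace Pool.Agent.PP.X1.H65

open Pool.Agent.Helper51_AWC Pool.Agent.Helper79_WRA Pool.Agent.PP

section general

variable {F : Type} [Field F]

theorem mat_ext {k m : ℕ} {A B : Matrix (Fin k) (Fin m) F} (h : ∀ c, A.mulVec c = B.mulVec c) :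
    A = B := by
  apply Matrix.toLin'.injective
  apply LinearMap.ext
  intro c
  rw [Matrix.toLin'_apply, Matrix.toLin'_apply]
  exact h c

/-- a simple quotient of the module generated by the image of `f` -/
theorem exists_quot [IsAlgClosed F] {P : Type} [Group P] {k m : ℕ}
    (ρ : P →* Matrix (Fin k) (Fin k) F) (f : (Fin m → F) →ₗ[F] (Fin k → F)) (hf : f ≠ 0) :
    ∃ (l : ℕ) (ρ' : P →* Matrix (Fin l) (Fin l) F) (W M : Submodule F (Fin k → F))
      (E : (Fin k → F) →ₗ[F] (Fin l → F)), IsIrr ρ' ∧ (∀ g, ∀ w ∈ W, (ρ g).mulVec w ∈ W) ∧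
      (∀ g, ∀ w ∈ M, (ρ g).mulVec w ∈ M) ∧ LinearMap.range f ≤ W ∧ ¬ LinearMap.range f ≤ M ∧
      (∀ g, ∀ w ∈ W, E ((ρ g).mulVec w) = (ρ' g).mulVec (E w)) ∧
      ∀ w ∈ W, E w = 0 → w ∈ M := by
  obtain ⟨W, hWdef⟩ : ∃ W, W = Submodule.span F {v | ∃ g c, v = (ρ g).mulVec (f c)} := ⟨_, rfl⟩
  have hmulVec : ∀ (g : P) (v : Fin k → F), mrep ρ g v = (ρ g).mulVec v := fun _ _ => rfl
  have hW : ∀ g, ∀ w ∈ W, (ρ g).mulVec w ∈ W := by
    intro g w hw
    rw [hWdef] at hw ⊢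
    induction hw using Submodule.span_induction with
    | mem x hx =>
      obtain ⟨g', c, rfl⟩ := hx
      apply Submodule.subset_span
      refine ⟨g * g', c, ?_⟩
      rw [Matrix.mulVec_mulVec, ← map_mul]
    | zero => rw [Matrix.mulVec_zero]; exact zero_mem _
    | add x y _ _ hx hy => rw [Matrix.mulVec_add]; exact add_mem hx hy
    | smul a x _ hx => rw [Matrix.mulVec_smul]; exact Submodule.smul_mem _ _ hx
  have hfW : LinearMap.range f ≤ W := by
    rintro _ ⟨c, rfl⟩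
    rw [hWdef]
    apply Submodule.subset_span
    refine ⟨1, c, ?_⟩
    rw [map_one, Matrix.one_mulVec]
  have hmin : ∀ Q : Submodule F (Fin k → F), (∀ g, ∀ w ∈ Q, (ρ g).mulVec w ∈ Q) →
      LinearMap.range f ≤ Q → W ≤ Q := by
    intro Q hQ hfQ
    rw [hWdef, Submodule.span_le]
    rintro _ ⟨g, c, rfl⟩
    exact hQ g _ (hfQ ⟨c, rfl⟩)
  obtain ⟨S, hS⟩ : ∃ S : Set (Submodule F (Fin k → F)), S =
      {Q | (∀ g, ∀ w ∈ Q, (ρ g).mulVec w ∈ Q) ∧ Q ≤ W ∧ ¬ LinearMap.range f ≤ Q} := ⟨_, rfl⟩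
  have hSne : S.Nonempty := by
    refine ⟨⊥, ?_⟩
    rw [hS]
    refine ⟨?_, bot_le, ?_⟩
    · intro g w hw
      rw [Submodule.mem_bot] at hw ⊢
      rw [hw, Matrix.mulVec_zero]
    · intro h
      apply hf
      rwa [le_bot_iff, LinearMap.range_eq_bot] at h
  obtain ⟨M, hMS, hMmax⟩ := WellFounded.has_min
    (wellFounded_gt (α := Submodule F (Fin k → F))) S hSne
  have hMS' := hMS
  rw [hS] at hMS'
  obtain ⟨hM, hMW, hfM⟩ := hMS'
  have hM' : ∀ x, ∀ v ∈ M.comap W.subtype,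
      (⟨mrep ρ x v, hW x v v.2⟩ : W) ∈ M.comap W.subtype := fun x v hv => hM x v hv
  let τ : Representation F P (W ⧸ M.comap W.subtype) :=
    Pool.Agent.PP.D1.H65.qrep (mrep ρ) W hW (M.comap W.subtype) hM'
  have hnt : Nontrivial (W ⧸ M.comap W.subtype) := by
    rw [Submodule.Quotient.nontrivial_iff]
    intro htop
    apply hfM
    rintro _ ⟨c, rfl⟩
    have h1 : (⟨f c, hfW ⟨c, rfl⟩⟩ : W) ∈ M.comap W.subtype := by
      rw [htop]
      trivial
    exact h1
  have hsimple : ∀ Q : Submodule F (W ⧸ M.comap W.subtype), (∀ g, ∀ v ∈ Q, τ g v ∈ Q) →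
      Q = ⊥ ∨ Q = ⊤ := by
    intro Q hQ
    obtain ⟨Y, hY⟩ : ∃ Y, Y = (Q.comap (M.comap W.subtype).mkQ).map W.subtype := ⟨_, rfl⟩
    have hYW : Y ≤ W := by
      rw [hY]
      rintro _ ⟨v, _, rfl⟩
      exact v.2
    have hMY : M ≤ Y := by
      intro v hv
      rw [hY]
      refine ⟨⟨v, hMW hv⟩, ?_, rfl⟩
      have h1 : (M.comap W.subtype).mkQ ⟨v, hMW hv⟩ = 0 := by
        rw [Submodule.mkQ_apply, Submodule.Quotient.mk_eq_zero]
        exact hv
      show (M.comap W.subtype).mkQ ⟨v, hMW hv⟩ ∈ Q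
      rw [h1]
      exact zero_mem _
    have hYs : ∀ g, ∀ w ∈ Y, (ρ g).mulVec w ∈ Y := by
      intro g w hw
      rw [hY] at hw ⊢
      obtain ⟨u, hu, rfl⟩ := hw
      exact ⟨⟨mrep ρ g u, hW g u u.2⟩, hQ g _ hu, rfl⟩
    by_cases hfY : LinearMap.range f ≤ Y
    · right
      rw [eq_top_iff]
      intro q _
      obtain ⟨v, rfl⟩ := (M.comap W.subtype).mkQ_surjective q
      have h1 := hmin Y hYs hfY v.2
      rw [hY] at h1
      obtain ⟨u, hu, huv⟩ := h1
      have h2 : u = v := Subtype.ext huv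
      rw [← h2]
      exact hu
    · left
      have h1 : Y ∈ S := by
        rw [hS]
        exact ⟨hYs, hYW, hfY⟩
      have h2 : Y = M := by
        by_contra hne
        exact hMmax Y h1 (lt_of_le_of_ne hMY (Ne.symm hne))
      rw [eq_bot_iff]
      intro q hq
      obtain ⟨v, rfl⟩ := (M.comap W.subtype).mkQ_surjective q
      have h3 : (v : Fin k → F) ∈ Y := by
        rw [hY]
        exact ⟨v, hq, rfl⟩
      rw [h2] at h3
      rw [Submodule.mem_bot, Submodule.mkQ_apply, Submodule.Quotient.mk_eq_zero]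
      exact h3
  obtain ⟨l, ρ', e, hρ', he⟩ := H55.irr_of_simple τ hsimple
  obtain ⟨E, hE⟩ := LinearMap.exists_extend (e.toLinearMap ∘ₗ (M.comap W.subtype).mkQ)
  have hEv : ∀ v (hv : v ∈ W), E v = e ((M.comap W.subtype).mkQ ⟨v, hv⟩) := by
    intro v hv
    exact LinearMap.congr_fun hE ⟨v, hv⟩
  refine ⟨l, ρ', W, M, E, hρ', hW, hM, hfW, hfM, ?_, ?_⟩
  · intro g w hw
    rw [hEv w hw, ← he, hEv _ (hW g w hw)]
    rfl
  · intro w hw h0
    rw [hEv w hw, LinearEquiv.map_eq_zero_iff, Submodule.mkQ_apply,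
      Submodule.Quotient.mk_eq_zero] at h0
    exact h0

end general

/-- `U` acts trivially on the irreducible representations of `B` -/
theorem ro_U {ℓ : ℕ} [Fact ℓ.Prime] {F : Type} [Field F] (hF : GoodF ℓ F) {G : Type} [Group G]
    [Finite G] (R : RGD ℓ G) {m : ℕ} (σ : R.B →* Matrix (Fin m) (Fin m) F) (hσ : IsIrr σ) {u : G}
    (hu : u ∈ R.U) : ro σ u = 1 := by
  have h1 : (R.U.subgroupOf R.B).Normal := by
    constructor
    intro x hx g
    rw [Subgroup.mem_subgroupOf] at hx ⊢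
    exact R.B_U g.2 hx
  have h2 : IsPGroup ℓ R.U := H18.upg ℓ G R R.pos (H32.clo_pos R) le_rfl
  have h3 : IsPGroup ℓ (R.U.subgroupOf R.B) :=
    h2.comap_of_injective _ Subtype.val_injective
  rw [ro_mem σ (R.U_le_B hu)]
  exact H20.nls_triv hF.prime hF.char (R.U.subgroupOf R.B) h1 h3 σ hσ ⟨u, R.U_le_B hu⟩
    (Subgroup.mem_subgroupOf.2 hu)

theorem sub (hVUI : VuiStmt) : SubStmt := by
  intro ℓ _ F _ hF G _ _ R J K hKJ k m ρ σ hσ X hX0 hXb hXA
  have : IsAlgClosed F := hF.closed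
  have hf : Matrix.toLin' X ≠ 0 := by
    intro h
    exact hX0 (Matrix.toLin'.injective (by rw [h, map_zero]))
  obtain ⟨l, ρ', W, M, E, hρ', hW, hM, hfW, hfM, hE, hker⟩ := exists_quot ρ (Matrix.toLin' X) hf
  have hXW : ∀ c, X.mulVec c ∈ W := fun c => hfW ⟨c, Matrix.toLin'_apply X c⟩
  -- the functions on the group
  have hroE : ∀ g, ∀ w ∈ W, E ((ro ρ g).mulVec w) = (ro ρ' g).mulVec (E w) := by
    intro g w hw
    by_cases hg : g ∈ R.PJ J
    · rw [ro_mem ρ hg, ro_mem ρ' hg]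
      exact hE _ w hw
    · rw [ro, ro, dif_neg hg, dif_neg hg, Matrix.zero_mulVec, Matrix.zero_mulVec, map_zero]
  have hroM : ∀ g, ∀ w ∈ M, (ro ρ g).mulVec w ∈ M := by
    intro g w hw
    by_cases hg : g ∈ R.PJ J
    · rw [ro_mem ρ hg]
      exact hM _ w hw
    · rw [ro, dif_neg hg, Matrix.zero_mulVec]
      exact zero_mem _
  obtain ⟨h, hh⟩ : ∃ h : (Fin m → F) →ₗ[F] (Fin l → F), ∀ c, h c = E (X.mulVec c) :=
    ⟨E ∘ₗ Matrix.toLin' X, fun c => by rw [LinearMap.comp_apply, Matrix.toLin'_apply]⟩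
  have hinj : Function.Injective h := by
    rw [injective_iff_map_eq_zero]
    intro c hc
    by_contra hc0
    obtain ⟨N, hN⟩ : ∃ N : Submodule F (Fin m → F), N = M.comap (Matrix.toLin' X) := ⟨_, rfl⟩
    have hcN : c ∈ N := by
      rw [hN, Submodule.mem_comap, Matrix.toLin'_apply]
      rw [hh] at hc
      exact hker _ (hXW c) hc
    have hNtop : N = ⊤ := by
      apply Pool.Agent.PP.D1.H65.top_of_stb hσ
      · rintro rfl
        exact hc0 ((Submodule.mem_bot F).1 hcN)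
      · intro b _ v hv
        rw [hN, Submodule.mem_comap, Matrix.toLin'_apply] at hv ⊢
        change X.mulVec ((σ b).mulVec v) ∈ M
        rw [Matrix.mulVec_mulVec, ← ro_coe σ b, ← hXb b b.2, ← Matrix.mulVec_mulVec]
        exact hroM _ _ hv
    apply hfM
    rintro _ ⟨d, rfl⟩
    have : d ∈ N := by
      rw [hNtop]
      trivial
    rwa [hN, Submodule.mem_comap] at this
  obtain ⟨h', hh'⟩ := LinearMap.exists_leftInverse_of_injective h (LinearMap.ker_eq_bot.2 hinj)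
  have hXm : ∀ c, (LinearMap.toMatrix' h).mulVec c = h c := by
    intro c
    rw [← Matrix.toLin'_apply, Matrix.toLin'_toMatrix']
  have hb : ∀ b ∈ R.B, ∀ c, (ro ρ' b).mulVec (h c) = h ((ro σ b).mulVec c) := by
    intro b hb c
    rw [hh, hh, ← hroE b _ (hXW c), Matrix.mulVec_mulVec, hXb b hb, ← Matrix.mulVec_mulVec]
  have hm : 0 < m := hσ.1
  have hfix : LinearMap.range h = fx R.U ρ' := by
    have s1 : LinearMap.range h ≤ fx R.U ρ' := by
      rintro _ ⟨c, rfl⟩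
      rw [mem_fx]
      intro u hu
      rw [hb u (R.U_le_B hu), ro_U hF R σ hσ hu, Matrix.one_mulVec]
    have s2 : TS R ρ' (LinearMap.range h) := by
      rintro t ht _ ⟨c, rfl⟩
      rw [hb t (R.T_le_B ht)]
      exact ⟨_, rfl⟩
    rcases (hVUI ℓ F hF G R J l ρ' hρ').2.2.1 (LinearMap.range h) s1 s2 with h1 | h1
    · exfalso
      rw [LinearMap.range_eq_bot] at h1
      have : (Pi.single ⟨0, hm⟩ 1 : Fin m → F) = 0 := by
        apply hinj
        rw [h1]
        rfl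
      have h2 := congrFun this ⟨0, hm⟩
      rw [Pi.single_eq_same] at h2
      exact one_ne_zero h2
    · exact h1
  have hA : ∀ i ∈ J, Ai R ρ' i * LinearMap.toMatrix' h = if i ∈ K then -LinearMap.toMatrix' h
      else 0 := by
    intro i hi
    apply mat_ext
    intro c
    have := Fintype.ofFinite (R.X (R.a i))
    rw [← Matrix.mulVec_mulVec, hXm, hh]
    have h1 : (Ai R ρ' i).mulVec (E (X.mulVec c)) = E ((Ai R ρ i).mulVec (X.mulVec c)) := by
      unfold Ai
      rw [finsum_eq_sum_of_fintype, finsum_eq_sum_of_fintype, Matrix.sum_mulVec,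
        Matrix.sum_mulVec, map_sum]
      exact Finset.sum_congr rfl fun x _ => (hroE _ _ (hXW c)).symm
    rw [h1, Matrix.mulVec_mulVec, hXA i hi]
    by_cases hiK : i ∈ K
    · rw [if_pos hiK, if_pos hiK, Matrix.neg_mulVec, Matrix.neg_mulVec, map_neg, hXm, hh]
    · rw [if_neg hiK, if_neg hiK, Matrix.zero_mulVec, Matrix.zero_mulVec, map_zero]
  have hYX : LinearMap.toMatrix' h' * LinearMap.toMatrix' h = 1 := by
    rw [← LinearMap.toMatrix'_comp, hh', LinearMap.toMatrix'_id]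
  refine ⟨l, ρ', hρ', hσ, hKJ, LinearMap.toMatrix' h, LinearMap.toMatrix' h', hYX, ?_, ?_, ?_⟩
  · intro b hbB
    apply mat_ext
    intro c
    rw [← Matrix.mulVec_mulVec, ← Matrix.mulVec_mulVec, hXm, hXm]
    exact hb b hbB c
  · intro v hv
    rw [← hfix] at hv
    obtain ⟨c, rfl⟩ := hv
    exact ⟨c, (hXm c).symm⟩
  · intro i hi
    rw [hA i hi]
    by_cases hiK : i ∈ K
    · rw [if_pos hiK]
      refine ⟨fun _ h0 => ?_, fun _ => hiK⟩
      have h1 : LinearMap.toMatrix' h = 0 := neg_eq_zero.1 h0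
      rw [h1, Matrix.mul_zero] at hYX
      have h2 := congrFun (congrFun hYX ⟨0, hm⟩) ⟨0, hm⟩
      rw [Matrix.one_apply_eq] at h2
      exact zero_ne_one h2
    · rw [if_neg hiK]
      exact ⟨fun h0 => absurd h0 hiK, fun h0 => absurd rfl h0⟩

end Pool.Agent.PP.X1.H65
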